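import Pool.Agent.helper32.TRG.Spec

set_option autoImplicit false

open Finset

namespace Pool.Agent.TRI

open Pool.Agent.EXC

open Polynomial in
theorem F4G_two {K : Type} [Field K] [Finite K] (u : K) : ∃ a b : K, a ^ 2 + b ^ 2 = u := by
  have := Fintype.ofFinite K
  by_cases h2 : ringChar K = 2
  · obtain ⟨r, hr⟩ := FiniteField.isSquare_of_char_two h2 u
    exact ⟨r, 0, by rw [hr]; ring⟩
  · have hodd : Fintype.card K % 2 = 1 := FiniteField.odd_card_of_char_ne_two h2
    have hf : degree (X ^ 2 : K[X]) = 2 := by simp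
    have hg : degree (X ^ 2 - C u : K[X]) = 2 := degree_X_pow_sub_C (by norm_num) u
    obtain ⟨a, b, hab⟩ := FiniteField.exists_root_sum_quadratic hf hg hodd
    refine ⟨a, b, ?_⟩
    simp only [eval_pow, eval_X, eval_sub, eval_C] at hab
    linear_combination hab

theorem F4G : F4G_stmt := by
  intro K _ _
  obtain ⟨g, hg⟩ := IsCyclic.exists_monoid_generator (α := Kˣ)
  refine ⟨(g : K), g.ne_zero, fun A hA => ?_⟩
  have hsq : ∀ x : K, x ^ 2 ∈ A := by
    intro x
    rcases eq_or_ne x 0 with rfl | hx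
    · rw [zero_pow two_ne_zero]
      exact A.zero_mem
    · obtain ⟨k, hk⟩ := hg (Units.mk0 x hx)
      have h1 : x = (g : K) ^ k := by
        have h2 := congrArg Units.val hk
        simpa using h2.symm
      rw [h1, ← pow_mul, mul_comm, pow_mul]
      exact A.pow_mem hA k
  rw [Subring.eq_top_iff']
  intro u
  obtain ⟨a, b, hab⟩ := F4G_two u
  rw [← hab]
  exact A.add_mem (hsq a) (hsq b)

end Pool.Agent.TRI
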